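import Pool.Agent.H29.ML.All

set_option autoImplicit false

/-! MP_10d2e2_nt: residues modulo `p` of the solutions of `x ^ 2 - 2 = y ^ p`, with two inputs of
the modular method as hypotheses.

`LevelLowering` (the rational Frey curve `E_x`, discriminant `2 ^ 8 y ^ p`) is as in
`ModularResidues` and leaves, besides `± 1`, one class modulo `p` for `p = 23, 283, 349` only.
`SupersingularAtP` is about the second Frey curve
`V_x : Y ^ 2 + 3 √2 X Y + (x + √2) Y = X ^ 3` over the field of `√2`, of discriminant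
`- 27 (x - √2) (x + √2) ^ 3`, a Q-curve of degree 3. For `x = ± 1` it has complex multiplication
by `ℤ[√-6]`, and `23, 283, 349` are inert in the field of `√-6`. The curves of the classes left
are ordinary. -/

namespace Pool.Agent.Results.MP_10d2e2_nt.AllPrimes

open Polynomial

/-- The trace of Frobenius at the prime `l` of the curve `Y ^ 2 = X ^ 3 + 2 x X ^ 2 + 2 X`:
`l` minus the number of its affine points over `ZMod l`. -/
noncomputable def trace (x : ℤ) (l : ℕ) : ℤ :=
  (l : ℤ) - (Nat.card {P : ZMod l × ZMod l //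
    P.2 ^ 2 = P.1 ^ 3 + 2 * (x : ZMod l) * P.1 ^ 2 + 2 * P.1} : ℤ)

/-- Level lowering for the curves `E_x`. For every prime `p ≥ 17` and every solution there is a
twist `d` among `1, -1, 2, -2` such that for every odd prime `l` (`l = p` included) not dividing
`y` the traces at `l` of `E_x` and of the twist of `E_1` by `d` are congruent modulo `p`, and for
every odd prime `l ≠ p` dividing `y` the trace at `l` of this twist is congruent to `± (l + 1)`
modulo `p`. -/
def LevelLowering : Prop :=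
  ∀ p : ℕ, p.Prime → 17 ≤ p → ∀ x y : ℤ, x ^ 2 - 2 = y ^ p →
    ∃ d : ℤ, (d = 1 ∨ d = -1 ∨ d = 2 ∨ d = -2) ∧
      ∀ l : ℕ, l.Prime → l ≠ 2 →
        (¬ (l : ℤ) ∣ y → trace x l ≡ jacobiSym d l * trace 1 l [ZMOD p]) ∧
        ((l : ℤ) ∣ y → l ≠ p →
          jacobiSym d l * trace 1 l ≡ (l : ℤ) + 1 [ZMOD p] ∨
            jacobiSym d l * trace 1 l ≡ -((l : ℤ) + 1) [ZMOD p])

/-- The Hasse invariant, over a field of characteristic `p > 2`, of the curve
`Y ^ 2 + 3 s X Y + (x + s) Y = X ^ 3`, that is `(2 Y + 3 s X + x + s) ^ 2 = f` with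
`f = 4 X ^ 3 + (3 s X + x + s) ^ 2`: the coefficient of `X ^ (p - 1)` in `f ^ ((p - 1) / 2)`. -/
noncomputable def hasse {F : Type} [Field F] (p : ℕ) (x : ℤ) (s : F) : F :=
  ((4 * X ^ 3 + (C (3 * s) * X + C ((x : F) + s)) ^ 2) ^ ((p - 1) / 2) : F[X]).coeff (p - 1)

/-- For `p = 23, 283, 349` and every solution the curve
`Y ^ 2 + 3 √2 X Y + (x + √2) Y = X ^ 3` has supersingular reduction at the primes above `p`. -/
def SupersingularAtP : Prop :=
  ∀ p : ℕ, (p = 23 ∨ p = 283 ∨ p = 349) → ∀ x y : ℤ, x ^ 2 - 2 = y ^ p →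
    ∀ (F : Type) [Field F] [CharP F p] (s : F), s ^ 2 = 2 → hasse p x s = 0

/-- The two inputs imply: for each of the 84 primes `p` with `14 ≤ p ≤ 911` which are not
`1, 5, 7, 11` modulo `24` every integer solution of `x ^ 2 - 2 = y ^ p` satisfies
`x ≡ ± 1` and `y ≡ - 1` modulo `p`. -/
theorem result (H : LevelLowering) (H' : SupersingularAtP) :
    ∀ p : ℕ, p.Prime → 14 ≤ p → p ≤ 911 → p % 24 ≠ 1 → p % 24 ≠ 5 → p % 24 ≠ 7 → p % 24 ≠ 11 →
      ∀ x y : ℤ, x ^ 2 - 2 = y ^ p →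
        (x ≡ 1 [ZMOD p] ∨ x ≡ -1 [ZMOD p]) ∧ y ≡ -1 [ZMOD p] :=
  fun p hp h14 h911 h1 h5 h7 h11 x y hxy =>
    H29ML.all_primes H H' p hp h14 h911 h1 h5 h7 h11 x y hxy

end Pool.Agent.Results.MP_10d2e2_nt.AllPrimes
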