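import Pool.Agent.H29.ML.Fin

set_option autoImplicit false

/-! MP_10d2e2_nt: residues modulo `p` of the solutions of `x ^ 2 - 2 = y ^ p`, with the published
level lowering theorem (the hypothesis `LevelLowering`) as input.

For a solution the curve `E_x : Y ^ 2 = X ^ 3 + 2 x X ^ 2 + 2 X` has discriminant `2 ^ 8 y ^ p` and
its `p`-torsion comes from a newform of level 128, that is from a twist of `E_1` by `1, -1, 2, -2`.
The prime `5` leaves the twists by `1` and `-1`. At the prime `p` itself (good reduction) the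
traces of Frobenius of `E_x` and of the twist are equal; this depends only on `x` modulo `p`. The
elementary condition modulo `p ^ 2` of `Pool.Agent.H7.LN` (`x + √2 = ε ^ k γ ^ p`) leaves at most
six classes of `± x` modulo `p`; comparing the traces leaves one class, `± 1`, except for
`p = 23, 283, 349`. For `p = 19` and `p = 47` the exponents `k` other than `1` and `p - 1` are
excluded at the auxiliary primes `191` and `1129`. -/

namespace Pool.Agent.Results.MP_10d2e2_nt.ModularResidues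

/-- The trace of Frobenius at the prime `l` of the curve `Y ^ 2 = X ^ 3 + 2 x X ^ 2 + 2 X`:
`l` minus the number of its affine points over `ZMod l`. -/
noncomputable def trace (x : ℤ) (l : ℕ) : ℤ :=
  (l : ℤ) - (Nat.card {P : ZMod l × ZMod l //
    P.2 ^ 2 = P.1 ^ 3 + 2 * (x : ZMod l) * P.1 ^ 2 + 2 * P.1} : ℤ)

/-- The published input. For every prime `p ≥ 17` and every solution there is a twist `d` among
`1, -1, 2, -2` such that for every odd prime `l` (`l = p` included) not dividing `y` the traces at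
`l` of `E_x` and of the twist of `E_1` by `d` are congruent modulo `p`, and for every odd prime
`l ≠ p` dividing `y` the trace at `l` of this twist is congruent to `± (l + 1)` modulo `p`. -/
def LevelLowering : Prop :=
  ∀ p : ℕ, p.Prime → 17 ≤ p → ∀ x y : ℤ, x ^ 2 - 2 = y ^ p →
    ∃ d : ℤ, (d = 1 ∨ d = -1 ∨ d = 2 ∨ d = -2) ∧
      ∀ l : ℕ, l.Prime → l ≠ 2 →
        (¬ (l : ℤ) ∣ y → trace x l ≡ jacobiSym d l * trace 1 l [ZMOD p]) ∧
        ((l : ℤ) ∣ y → l ≠ p →
          jacobiSym d l * trace 1 l ≡ (l : ℤ) + 1 [ZMOD p] ∨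
            jacobiSym d l * trace 1 l ≡ -((l : ℤ) + 1) [ZMOD p])

/-- Level lowering implies: for each of the 84 primes `p` with `14 ≤ p ≤ 911` which are not
`1, 5, 7, 11` modulo `24`, except `23, 283, 349`, every integer solution of `x ^ 2 - 2 = y ^ p`
satisfies `x ≡ ± 1` and `y ≡ - 1` modulo `p`; for `p = 23, 283, 349` the only other possibility is
`x ≡ ± 3`, `± 13`, `± 126` modulo `p`. -/
theorem result (H : LevelLowering) :
    ∀ p : ℕ, p.Prime → 14 ≤ p → p ≤ 911 → p % 24 ≠ 1 → p % 24 ≠ 5 → p % 24 ≠ 7 → p % 24 ≠ 11 →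
      ∀ x y : ℤ, x ^ 2 - 2 = y ^ p →
        ((x ≡ 1 [ZMOD p] ∨ x ≡ -1 [ZMOD p]) ∧ y ≡ -1 [ZMOD p]) ∨
        (p = 23 ∧ (x ≡ 3 [ZMOD p] ∨ x ≡ -3 [ZMOD p])) ∨
        (p = 283 ∧ (x ≡ 13 [ZMOD p] ∨ x ≡ -13 [ZMOD p])) ∨
        (p = 349 ∧ (x ≡ 126 [ZMOD p] ∨ x ≡ -126 [ZMOD p])) :=
  fun p hp h14 h911 h1 h5 h7 h11 x y hxy =>
    H29ML.final H p hp h14 h911 h1 h5 h7 h11 x y hxy

end Pool.Agent.Results.MP_10d2e2_nt.ModularResidues
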