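import Pool.Agent.H7.LN.D1
import Pool.Agent.H7.LN.D2
import Pool.Agent.H7.LN.D3
import Pool.Agent.H7.LN.D4
import Pool.Agent.H7.LN.D5
import Pool.Agent.H7.LN.D6
import Pool.Agent.H7.LN.D7
import Pool.Agent.H7.LN.D8

set_option autoImplicit false

/-! MP_10d2e2_nt: residues modulo `p` of the solutions of `x ^ 2 - 2 = y ^ p`.

Proof (elementary). `ℤ[√2]` is norm-Euclidean with units `± ε ^ k`, `ε = 1 + √2`, so
`x + √2 = ε ^ k γ ^ p`, `0 ≤ k < p` (`Core.lean`). For an auxiliary prime `l = 2 n p + 1` in which
`2` is a square the equation leaves few `k`; the auxiliary primes in `D1.lean`, ..., `D8.lean` leave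
`k = 1` and `k = p - 1` (for `p = 19, 41, 47` some more). For every `k` the coefficient of `√2` in
`ε ^ k γ ^ p` modulo `p ^ 2` depends only on `γ` modulo `p`; that it is `1` leaves few residues of
`x` modulo `p`. -/

namespace Pool.Agent.Results.MP_10d2e2_nt.ResiduesModP

open H7LN

/-- All 84 primes `p` with `14 ≤ p ≤ 911` which are not `1, 5, 7, 11` modulo `24`, each with a
list `L`. -/
def table : List (ℕ × List ℕ) :=
  [(17, [1, 10]), (19, [1, 2, 3, 10, 11, 12]), (23, [1, 7, 15, 20]), (37, [1]), (41, [1]), (43,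
   [1, 41]), (47, [1, 35]), (61, [1]), (67, [1]), (71, [1, 17]), (89, [1]), (109, [1, 64]), (113,
   [1]), (137, [1, 86]), (139, [1, 18]), (157, [1, 109]), (163, [1, 20]), (167, [1, 9, 96]),
   (181, [1, 56, 109]), (191, [1, 18, 28, 63, 150]), (211, [1, 166]), (229, [1]), (233, [1,
   147]), (239, [1]), (257, [1, 82]), (263, [1, 216]), (277, [1, 241]), (281, [1, 215]), (283,
   [1, 48, 104, 239, 270]), (307, [1, 202, 224, 303]), (311, [1, 161]), (331, [1]), (349, [1,
   126, 204, 246]), (353, [1, 240]), (359, [1, 198, 300]), (373, [1]), (379, [1]), (383, [1]),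
   (397, [1]), (401, [1]), (421, [1, 341]), (431, [1]), (449, [1, 151, 176]), (479, [1]), (499,
   [1, 11, 254]), (503, [1]), (521, [1, 184, 425]), (523, [1, 46, 57, 77]), (541, [1, 235, 450]),
   (547, [1, 409]), (569, [1, 412, 500]), (571, [1, 228]), (593, [1]), (599, [1, 366]), (613,
   [1]), (617, [1]), (619, [1, 374]), (641, [1, 287]), (643, [1]), (647, [1, 316, 394]), (661,
   [1, 595]), (691, [1]), (709, [1, 574]), (719, [1]), (733, [1, 129]), (739, [1, 349, 397,
   565]), (743, [1, 704]), (757, [1, 464]), (761, [1, 178]), (787, [1]), (809, [1, 65]), (811,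
   [1]), (829, [1, 334, 737]), (839, [1, 276, 816]), (853, [1, 127, 380]), (857, [1, 97]), (859,
   [1, 207]), (863, [1, 144, 195]), (877, [1]), (881, [1]), (883, [1, 204, 538]), (887, [1,
   379]), (907, [1]), (911, [1])]

/-- The 29 primes of `table` with the list `[1]`. -/
def settled : List ℕ :=
  [37, 41, 61, 67, 89, 113, 229, 239, 331, 373, 379, 383, 397, 401, 431, 479, 503, 593, 613, 617,
   643, 691, 719, 787, 811, 877, 881, 907, 911]

theorem table_res : ∀ e ∈ table, Res e.1 e.2 := by
  intro e he
  simp only [table, List.mem_cons, List.not_mem_nil, or_false] at he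
  rcases he with rfl | rfl | rfl | rfl | rfl | rfl | rfl | rfl | rfl | rfl | rfl | rfl | rfl | rfl | rfl | rfl | rfl | rfl | rfl | rfl | rfl | rfl | rfl | rfl | rfl | rfl | rfl | rfl | rfl | rfl | rfl | rfl | rfl | rfl | rfl | rfl | rfl | rfl | rfl | rfl | rfl | rfl | rfl | rfl | rfl | rfl | rfl | rfl | rfl | rfl | rfl | rfl | rfl | rfl | rfl | rfl | rfl | rfl | rfl | rfl | rfl | rfl | rfl | rfl | rfl | rfl | rfl | rfl | rfl | rfl | rfl | rfl | rfl | rfl | rfl | rfl | rfl | rfl | rfl | rfl | rfl | rfl | rfl | rfl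
  · exact res17
  · exact res19
  · exact res23
  · exact res37
  · exact res41
  · exact res43
  · exact res47
  · exact res61
  · exact res67
  · exact res71
  · exact res89
  · exact res109
  · exact res113
  · exact res137
  · exact res139
  · exact res157
  · exact res163
  · exact res167
  · exact res181
  · exact res191
  · exact res211
  · exact res229
  · exact res233
  · exact res239
  · exact res257
  · exact res263
  · exact res277
  · exact res281
  · exact res283
  · exact res307
  · exact res311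
  · exact res331
  · exact res349
  · exact res353
  · exact res359
  · exact res373
  · exact res379
  · exact res383
  · exact res397
  · exact res401
  · exact res421
  · exact res431
  · exact res449
  · exact res479
  · exact res499
  · exact res503
  · exact res521
  · exact res523
  · exact res541
  · exact res547
  · exact res569
  · exact res571
  · exact res593
  · exact res599
  · exact res613
  · exact res617
  · exact res619
  · exact res641
  · exact res643
  · exact res647
  · exact res661
  · exact res691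
  · exact res709
  · exact res719
  · exact res733
  · exact res739
  · exact res743
  · exact res757
  · exact res761
  · exact res787
  · exact res809
  · exact res811
  · exact res829
  · exact res839
  · exact res853
  · exact res857
  · exact res859
  · exact res863
  · exact res877
  · exact res881
  · exact res883
  · exact res887
  · exact res907
  · exact res911

theorem y_res {p : ℕ} (hp : p.Prime) {x y : ℤ} (h : x ^ 2 - 2 = y ^ p)
    (hx : x ≡ 1 [ZMOD p] ∨ x ≡ -1 [ZMOD p]) : y ≡ -1 [ZMOD p] := by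
  have : Fact p.Prime := ⟨hp⟩
  have hy : y ^ p ≡ y [ZMOD p] := by
    rw [← ZMod.intCast_eq_intCast_iff]
    push_cast
    exact ZMod.pow_card _
  refine hy.symm.trans ?_
  rw [← h]
  have h1 : x ^ 2 ≡ 1 [ZMOD p] := by
    rcases hx with hx | hx
    · have := hx.pow 2
      rwa [one_pow] at this
    · have := hx.pow 2
      rwa [neg_one_sq] at this
  exact (h1.sub_right 2).trans (meq (by norm_num))

/-- For the 29 primes `p` of `settled` every integer solution of `x ^ 2 - 2 = y ^ p` satisfies
`x ≡ ± 1` and `y ≡ - 1` modulo `p`; for each of the 84 primes `14 ≤ p ≤ 911` which are not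
`1, 5, 7, 11` modulo `24` every solution satisfies `x ≡ ± c` modulo `p` with `c` in the list of `p`
in `table`. -/
theorem result :
    (∀ p ∈ settled, ∀ x y : ℤ, x ^ 2 - 2 = y ^ p →
      (x ≡ 1 [ZMOD p] ∨ x ≡ -1 [ZMOD p]) ∧ y ≡ -1 [ZMOD p]) ∧
    (∀ p : ℕ, p.Prime → 14 ≤ p → p ≤ 911 → p % 24 ≠ 1 → p % 24 ≠ 5 → p % 24 ≠ 7 → p % 24 ≠ 11 →
      ∃ L : List ℕ, (p, L) ∈ table ∧ ∀ x y : ℤ, x ^ 2 - 2 = y ^ p →
        ∃ c ∈ L, x ≡ (c : ℤ) [ZMOD p] ∨ x ≡ -(c : ℤ) [ZMOD p]) := by
  constructor
  · intro p hp x y h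
    have h1 : ∀ q ∈ settled, primeChk q = true ∧ ((q, [1]) : ℕ × List ℕ) ∈ table := by
      decide +kernel
    obtain ⟨hpp, ht⟩ := h1 p hp
    obtain ⟨c, hc, hx⟩ := table_res _ ht x y h
    simp only [List.mem_cons, List.not_mem_nil, or_false] at hc
    rw [hc, Nat.cast_one] at hx
    exact ⟨hx, y_res (primeChk_sound hpp) h hx⟩
  · have key : ∀ p < 912, p < 14 ∨ p % 24 = 1 ∨ p % 24 = 5 ∨ p % 24 = 7 ∨ p % 24 = 11 ∨
        (∃ e ∈ table, e.1 = p) ∨ ∃ d < 31, 2 ≤ d ∧ d < p ∧ p % d = 0 := by
      decide +kernel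
    intro p hp h14 h911 h1 h5 h7 h11
    rcases key p (by omega) with h | h | h | h | h | ⟨e, he, rfl⟩ | ⟨d, -, hd2, hdp, hd⟩
    · omega
    · exact absurd h h1
    · exact absurd h h5
    · exact absurd h h7
    · exact absurd h h11
    · exact ⟨e.2, he, table_res e he⟩
    · exfalso
      rcases (Nat.dvd_prime hp).mp (Nat.dvd_of_mod_eq_zero hd) with h | h <;> omega

end Pool.Agent.Results.MP_10d2e2_nt.ResiduesModP
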